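import Mathlib
import Pool.Agent.Results.MP_64e20d_co.Main

/-!
# Strongly chordal graphs that are not NeST: critical ones, connected ones of every order

The starting theorem gives a strongly chordal graph that is not a NeST graph. Here: for every
`n ≥ 49305` there is a connected one with exactly `n` vertices; every chordal graph, and every
strongly chordal graph, is an induced subgraph of a connected graph of the same kind which is not a
NeST graph; and there are critical examples, all of whose proper induced subgraphs are NeST graphs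
(respectively bounded NeST graphs).
-/

set_option autoImplicit false

namespace Pool.Agent.Results.MP_64e20d_co.CriticalEveryOrder

open Metric Set Pool.Agent.Helper997.NeST
open Pool.Agent.Results.MP_64e20d_co.Main

/-! ### Hereditary classes -/

section hereditary

variable {V W : Type} {H : SimpleGraph V} {G : SimpleGraph W}

theorem chordal_of_embedding (f : H ↪g G) (h : IsChordal G) : IsChordal H :=
  fun n hn => ⟨fun g => (h n hn).false (f.comp g)⟩

theorem stronglyChordal_of_embedding (f : H ↪g G) (h : IsStronglyChordal G) :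
    IsStronglyChordal H :=
  ⟨chordal_of_embedding f h.1, fun k hk => ⟨fun g => (h.2 k hk).false (f.comp g)⟩⟩

theorem rep_of_embedding {T : Type} [MetricSpace T] (f : H ↪g G) {c : W → T} {r t : W → ℝ}
    (h : IsNeSTRep G c r t) :
    IsNeSTRep H (fun v => c (f v)) (fun v => r (f v)) (fun v => t (f v)) where
  radius_pos v := h.radius_pos (f v)
  tolerance_pos v := h.tolerance_pos (f v)
  size v := h.size (f v)
  adj_iff x y hxy := by
    rw [← f.map_adj_iff]
    exact h.adj_iff (f x) (f y) (fun e => hxy (f.injective e))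

theorem nest_of_embedding (f : H ↪g G) (h : IsNeST G) : IsNeST H := by
  obtain ⟨T, i, hT, c, r, t, hrep⟩ := h
  exact ⟨T, i, hT, _, _, _, rep_of_embedding f hrep⟩

theorem boundedNest_of_embedding (f : H ↪g G) (h : IsBoundedNeST G) : IsBoundedNeST H := by
  obtain ⟨T, i, hT, c, r, t, hrep, hb⟩ := h
  exact ⟨T, i, hT, _, _, _, rep_of_embedding f hrep, fun v => hb (f v)⟩

end hereditary

/-! ### Universal vertices and disjoint unions -/

section cone

variable {V U X : Type}

/-- The graph `H` with the elements of `U` as additional universal vertices. -/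
def cone (U : Type) (H : SimpleGraph V) : SimpleGraph (V ⊕ U) where
  Adj x y := match x, y with
    | Sum.inl a, Sum.inl b => H.Adj a b
    | Sum.inr a, Sum.inr b => a ≠ b
    | _, _ => True
  symm := ⟨by
    rintro (a | a) (b | b) h
    · exact H.symm.symm _ _ h
    · trivial
    · trivial
    · exact fun e => h e.symm⟩
  loopless := ⟨by
    rintro (a | a) h
    · exact H.loopless.irrefl _ h
    · exact h rfl⟩

/-- The embedding of `H`. -/
def coneEmb (U : Type) (H : SimpleGraph V) : H ↪g cone U H where
  toFun := Sum.inl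
  inj' := Sum.inl_injective
  map_rel_iff' := Iff.rfl

theorem cone_universal (H : SimpleGraph V) (u : U) (x : V ⊕ U) (hx : x ≠ Sum.inr u) :
    (cone U H).Adj (Sum.inr u) x := by
  rcases x with x | x
  · trivial
  · exact fun e => hx (by rw [e])

theorem cone_connected (H : SimpleGraph V) [Nonempty U] : (cone U H).Connected := by
  obtain ⟨u⟩ := ‹Nonempty U›
  rw [SimpleGraph.connected_iff_exists_forall_reachable]
  refine ⟨Sum.inr u, fun x => ?_⟩
  by_cases hx : x = Sum.inr u
  · rw [hx]
  · exact (cone_universal H u x hx).reachable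

/-- Every vertex of `F` has a non-neighbour. -/
def NoUniversal (F : SimpleGraph X) : Prop := ∀ x, ∃ y, y ≠ x ∧ ¬ F.Adj x y

theorem descend_cone {F : SimpleGraph X} (hF : NoUniversal F) (H : SimpleGraph V)
    (f : F ↪g cone U H) : Nonempty (F ↪g H) := by
  have key : ∀ x, ∃ a, f x = Sum.inl a := by
    intro x
    rcases hx : f x with a | u
    · exact ⟨a, rfl⟩
    · exfalso
      obtain ⟨y, hyx, hy⟩ := hF x
      apply hy
      rw [← f.map_adj_iff, hx]
      exact cone_universal H u _ (fun e => hyx (f.injective (e.trans hx.symm)))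
  choose g hg using key
  refine ⟨⟨⟨g, fun x y hxy => f.injective (by rw [hg, hg, hxy])⟩, ?_⟩⟩
  intro x y
  rw [← f.map_adj_iff, hg, hg]
  rfl

theorem descend_sum {F : SimpleGraph X} (hF : F.Preconnected) (hne : Nonempty X)
    {A : SimpleGraph V} {B : SimpleGraph U} (f : F ↪g (A ⊕g B)) :
    Nonempty (F ↪g A) ∨ Nonempty (F ↪g B) := by
  obtain ⟨x₀⟩ := hne
  have step : ∀ x y, F.Adj x y → ((f x).isLeft = (f y).isLeft) := by
    intro x y h
    have h' := f.map_adj_iff.2 h
    rcases hx : f x with a | a <;> rcases hy : f y with b | b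
    · rfl
    · rw [hx, hy] at h'
      exact absurd h' (by simp)
    · rw [hx, hy] at h'
      exact absurd h' (by simp)
    · rfl
  have all : ∀ x, (f x).isLeft = (f x₀).isLeft := by
    intro x
    obtain ⟨p⟩ := hF x x₀
    induction p with
    | nil => rfl
    | cons h _ ih => exact (step _ _ h).trans ih
  rcases h₀ : f x₀ with a₀ | b₀
  · left
    have key : ∀ x, ∃ a, f x = Sum.inl a := by
      intro x
      have := all x
      rw [h₀] at this
      exact Sum.isLeft_iff.1 this
    choose g hg using key
    refine ⟨⟨⟨g, fun x y hxy => f.injective (by rw [hg, hg, hxy])⟩, ?_⟩⟩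
    intro x y
    rw [← f.map_adj_iff, hg, hg]
    exact SimpleGraph.sum_adj_inl.symm
  · right
    have key : ∀ x, ∃ b, f x = Sum.inr b := by
      intro x
      have := all x
      rw [h₀] at this
      rcases hx : f x with a | b
      · rw [hx] at this
        exact absurd this (by simp)
      · exact ⟨b, rfl⟩
    choose g hg using key
    refine ⟨⟨⟨g, fun x y hxy => f.injective (by rw [hg, hg, hxy])⟩, ?_⟩⟩
    intro x y
    rw [← f.map_adj_iff, hg, hg]
    exact SimpleGraph.sum_adj_inr.symm

theorem noUniversal_cycle {n : ℕ} (hn : 4 ≤ n) : NoUniversal (SimpleGraph.cycleGraph n) := by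
  obtain ⟨m, rfl⟩ : ∃ m, n = m + 4 := ⟨n - 4, by omega⟩
  obtain ⟨f1, f2, f3⟩ := fin_facts m
  intro x
  refine ⟨x + (1 + 1), fun e => f1 (by
    have : x + (1 + 1) - x = 0 := by rw [e, sub_self]
    rw [← this]; abel), ?_⟩
  rw [SimpleGraph.cycleGraph_adj]
  rintro (e | e)
  · apply f3
    have h : (1 + 1 + 1 : Fin (m + 4)) = 1 - (x - (x + (1 + 1))) := by abel
    rw [h, e, sub_self]
  · have h : (1 + 1 : Fin (m + 4)) = x + (1 + 1) - x := by abel
    exact f2 (h.trans e)

theorem noUniversal_sun {k : ℕ} (hk : 3 ≤ k) : NoUniversal (sun k) := by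
  obtain ⟨z1, z2⟩ := zmod_facts hk
  rintro (j | i)
  · refine ⟨Sum.inr (j + 1), by simp, ?_⟩
    rw [sun_adj_uw]
    rintro (e | e)
    · exact z1 (by simpa using e.symm)
    · apply z2
      have : (1 + 1 : ZMod k) = j + 1 + 1 - j := by ring
      rw [this, ← e, sub_self]
  · refine ⟨Sum.inr (i + 1), ?_, sun_adj_ww _ _⟩
    intro e
    exact z1 (by simpa using Sum.inr_injective e)

theorem preconnected_sun {k : ℕ} : (sun k).Preconnected := by
  have huu : ∀ i j : ZMod k, (sun k).Reachable (.inl i) (.inl j) := by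
    intro i j
    by_cases h : i = j
    · rw [h]
    · refine SimpleGraph.Adj.reachable ?_
      simp [sun, sunRel, h]
  have hw : ∀ i : ZMod k, (sun k).Reachable (.inl i) (.inr i) := fun i =>
    SimpleGraph.Adj.reachable ((sun_adj_uw i i).2 (Or.inl rfl))
  rintro (i | i) (j | j)
  · exact huu i j
  · exact (huu i j).trans (hw j)
  · exact (hw i).symm.trans (huu i j)
  · exact (hw i).symm.trans ((huu i j).trans (hw j))

theorem chordal_cone {H : SimpleGraph V} (h : IsChordal H) : IsChordal (cone U H) :=
  fun n hn => ⟨fun f => by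
    obtain ⟨g⟩ := descend_cone (noUniversal_cycle hn) H f
    exact (h n hn).false g⟩

theorem stronglyChordal_cone {H : SimpleGraph V} (h : IsStronglyChordal H) :
    IsStronglyChordal (cone U H) :=
  ⟨chordal_cone h.1, fun k hk => ⟨fun f => by
    obtain ⟨g⟩ := descend_cone (noUniversal_sun hk) H f
    exact (h.2 k hk).false g⟩⟩

theorem chordal_sum {A : SimpleGraph V} {B : SimpleGraph U} (hA : IsChordal A)
    (hB : IsChordal B) : IsChordal (A ⊕g B) :=
  fun n hn => ⟨fun f => by
    rcases descend_sum SimpleGraph.cycleGraph_preconnected ⟨(⟨0, by omega⟩ : Fin n)⟩ f with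
      h | h
    · exact h.elim (hA n hn).false
    · exact h.elim (hB n hn).false⟩

theorem stronglyChordal_sum {A : SimpleGraph V} {B : SimpleGraph U} (hA : IsStronglyChordal A)
    (hB : IsStronglyChordal B) : IsStronglyChordal (A ⊕g B) :=
  ⟨chordal_sum hA.1 hB.1, fun k hk => ⟨fun f => by
    rcases descend_sum preconnected_sun ⟨Sum.inl 0⟩ f with h | h
    · exact h.elim (hA.2 k hk).false
    · exact h.elim (hB.2 k hk).false⟩⟩

end cone

/-! ### The number of vertices of the example -/

/-- The vertices of the grid graph. -/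
def vtxEquiv (p q : ℕ) : Vtx p q ≃ ((Fin p × Fin q) ⊕ (Fin p × Fin q)) ⊕ (Fin q ⊕ Fin p) where
  toFun v := match v with
    | .a i j => Sum.inl (Sum.inl (i, j))
    | .b i j => Sum.inl (Sum.inr (i, j))
    | .α j => Sum.inr (Sum.inl j)
    | .β i => Sum.inr (Sum.inr i)
  invFun s := match s with
    | Sum.inl (Sum.inl x) => .a x.1 x.2
    | Sum.inl (Sum.inr x) => .b x.1 x.2
    | Sum.inr (Sum.inl j) => .α j
    | Sum.inr (Sum.inr i) => .β i
  left_inv v := by cases v <;> rfl
  right_inv s := by rcases s with (⟨i, j⟩ | ⟨i, j⟩) | (j | i) <;> rfl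

theorem card_vtx : Nat.card (Vtx 9 1297 × Bool) = 49304 := by
  rw [Nat.card_prod, Nat.card_congr (vtxEquiv 9 1297)]
  simp

/-- The example of the starting theorem. -/
def ex : SimpleGraph (Vtx 9 1297 × Bool) := doubled (gridGraph 9 1297)

theorem ex_sc : IsStronglyChordal ex := doubled_stronglyChordal

theorem ex_not : ¬ IsNeST ex := doubled_not_nest (by norm_num) (by norm_num)

/-- Critical examples for a class `Q` of graphs. -/
theorem critical (Q : ∀ V : Type, SimpleGraph V → Prop) (hQ : ¬ Q _ ex) :
    ∃ (V : Type) (_ : Finite V) (G : SimpleGraph V), IsStronglyChordal G ∧ ¬ Q V G ∧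
      ∀ s : Set V, s ≠ univ → Q s (G.induce s) := by
  classical
  have hP : ∃ m : ℕ, ∃ (V : Type) (_ : Finite V) (G : SimpleGraph V), Nat.card V = m ∧
      IsStronglyChordal G ∧ ¬ Q V G := ⟨_, _, inferInstance, ex, rfl, ex_sc, hQ⟩
  obtain ⟨V, hV, G, hcard, hG, hnot⟩ := Nat.find_spec hP
  refine ⟨V, hV, G, hG, hnot, fun s hs => ?_⟩
  by_contra hcon
  have hlt : Nat.card s < Nat.card V := by
    rw [Nat.card_coe_set_eq, ← Set.ncard_univ]
    exact Set.ncard_lt_ncard (Set.ssubset_univ_iff.2 hs) (Set.toFinite _)
  exact Nat.find_min hP (m := Nat.card s) (by rw [← hcard]; exact hlt)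
    ⟨s, inferInstance, G.induce s, rfl,
      stronglyChordal_of_embedding (SimpleGraph.Embedding.induce s) hG, hcon⟩

/-- **Main theorem.** (1) For every `n ≥ 49305` there is a connected strongly chordal graph on `n`
vertices which is not a NeST graph (hence not a bounded NeST graph). (2) Every strongly chordal
graph is an induced subgraph of a connected strongly chordal graph which is not a NeST graph.
(3) The same for chordal graphs. (4) There is a strongly chordal graph which is not a NeST graph,
all of whose proper induced subgraphs are NeST graphs. (5) There is a strongly chordal graph which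
is not a bounded NeST graph, all of whose proper induced subgraphs are bounded NeST graphs.
(6) Hence none of the four inclusions in the question holds. -/
theorem result :
    (∀ n, 49305 ≤ n → ∃ G : SimpleGraph (Fin n), G.Connected ∧ IsStronglyChordal G ∧
      ¬ IsNeST G ∧ ¬ IsBoundedNeST G) ∧
    (∀ (V : Type) [Finite V] (H : SimpleGraph V), IsStronglyChordal H →
      ∃ (W : Type) (_ : Finite W) (G : SimpleGraph W), G.Connected ∧ IsStronglyChordal G ∧
        ¬ IsNeST G ∧ Nonempty (H ↪g G)) ∧
    (∀ (V : Type) [Finite V] (H : SimpleGraph V), IsChordal H →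
      ∃ (W : Type) (_ : Finite W) (G : SimpleGraph W), G.Connected ∧ IsChordal G ∧
        ¬ IsNeST G ∧ Nonempty (H ↪g G)) ∧
    (∃ (V : Type) (_ : Finite V) (G : SimpleGraph V), IsStronglyChordal G ∧ ¬ IsNeST G ∧
      ∀ s : Set V, s ≠ univ → IsNeST (G.induce s)) ∧
    (∃ (V : Type) (_ : Finite V) (G : SimpleGraph V), IsStronglyChordal G ∧ ¬ IsBoundedNeST G ∧
      ∀ s : Set V, s ≠ univ → IsBoundedNeST (G.induce s)) ∧
    ((¬ ∀ (V : Type) [Fintype V] (G : SimpleGraph V), IsChordal G → IsNeST G) ∧
    (¬ ∀ (V : Type) [Fintype V] (G : SimpleGraph V), IsChordal G → IsBoundedNeST G) ∧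
    (¬ ∀ (V : Type) [Fintype V] (G : SimpleGraph V), IsStronglyChordal G → IsNeST G) ∧
    (¬ ∀ (V : Type) [Fintype V] (G : SimpleGraph V), IsStronglyChordal G → IsBoundedNeST G)) := by
  refine ⟨?_, ?_, ?_, critical (fun _ G => IsNeST G) ex_not,
    critical (fun _ G => IsBoundedNeST G) (fun h => ex_not (nest_of_bounded h)), Main.result⟩
  · intro n hn
    have hm : Nonempty (Fin (n - 49304)) := ⟨⟨0, by omega⟩⟩
    have hcard : Nat.card (Fin n) = Nat.card ((Vtx 9 1297 × Bool) ⊕ Fin (n - 49304)) := by
      rw [Nat.card_sum, card_vtx, Nat.card_fin, Nat.card_fin]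
      omega
    let e : Fin n ≃ (Vtx 9 1297 × Bool) ⊕ Fin (n - 49304) := Classical.choice
      (Finite.card_eq.1 hcard)
    let K := cone (Fin (n - 49304)) ex
    let φ : K.comap e ≃g K := SimpleGraph.Iso.comap e K
    have hnot : ¬ IsNeST (K.comap e) := fun h =>
      ex_not (nest_of_embedding (φ.symm.toEmbedding.comp (coneEmb _ ex)) h)
    exact ⟨K.comap e, φ.connected_iff.2 (cone_connected ex),
      stronglyChordal_of_embedding φ.toEmbedding (stronglyChordal_cone ex_sc), hnot,
      fun h => hnot (nest_of_bounded h)⟩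
  · intro V _ H hH
    refine ⟨(V ⊕ (Vtx 9 1297 × Bool)) ⊕ Unit, inferInstance, cone Unit (H ⊕g ex),
      cone_connected _, stronglyChordal_cone (stronglyChordal_sum hH ex_sc), fun h => ?_,
      ⟨(coneEmb _ _).comp SimpleGraph.Embedding.sumInl⟩⟩
    exact ex_not (nest_of_embedding ((coneEmb _ _).comp SimpleGraph.Embedding.sumInr) h)
  · intro V _ H hH
    refine ⟨(V ⊕ (Vtx 9 1297 × Bool)) ⊕ Unit, inferInstance, cone Unit (H ⊕g ex),
      cone_connected _, chordal_cone (chordal_sum hH ex_sc.1), fun h => ?_,
      ⟨(coneEmb _ _).comp SimpleGraph.Embedding.sumInl⟩⟩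
    exact ex_not (nest_of_embedding ((coneEmb _ _).comp SimpleGraph.Embedding.sumInr) h)

end Pool.Agent.Results.MP_64e20d_co.CriticalEveryOrder
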